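import Pool.Agent.H45.EE.Chain

/-!
# The chain lemma, with integer indices
-/

set_option autoImplicit false

namespace ALoop

open Equiv

variable {Q : Type*} {G : Subgroup (Perm Q)} {L : Q → Perm Q} {e : Q}

namespace AE

theorem cu_eq (h : AE G L e) (p q r : Q) (i : ℕ) :
    cu L p q r i = (tt L p q) ^ (i : ℤ) * uu L p q r * (tt L p q) ^ (-(i : ℤ)) := by
  have h1 := h.cu_shift_pow p q r 0 i
  rw [zero_add] at h1
  have h2 : cu L p q r 0 = uu L p q r := rfl
  rw [h2] at h1
  rw [zpow_neg, zpow_natCast, h1]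
  group

/-- all conjugates of `u(p,q,r)` under powers of `t(p,q)` commute -/
theorem chain_comm (h : AE G L e) (p q r : Q) (i j : ℤ) :
    Commute ((tt L p q) ^ i * uu L p q r * (tt L p q) ^ (-i))
      ((tt L p q) ^ j * uu L p q r * (tt L p q) ^ (-j)) := by
  have key : ∀ (i : ℤ) (k : ℕ), Commute ((tt L p q) ^ i * uu L p q r * (tt L p q) ^ (-i))
      ((tt L p q) ^ (i + k) * uu L p q r * (tt L p q) ^ (-(i + k))) := by
    intro i k
    have h1 := h.cu_comm p q r 0 k
    rw [h.cu_eq, h.cu_eq] at h1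
    have h2 := h1.conj ((tt L p q) ^ i)
    have e1 : (tt L p q) ^ i * ((tt L p q) ^ ((0 : ℕ) : ℤ) * uu L p q r *
        (tt L p q) ^ (-((0 : ℕ) : ℤ))) * ((tt L p q) ^ i)⁻¹ =
        (tt L p q) ^ i * uu L p q r * (tt L p q) ^ (-i) := by
      simp
    have e2 : (tt L p q) ^ i * ((tt L p q) ^ (k : ℤ) * uu L p q r *
        (tt L p q) ^ (-(k : ℤ))) * ((tt L p q) ^ i)⁻¹ =
        (tt L p q) ^ (i + k) * uu L p q r * (tt L p q) ^ (-(i + k)) := by
      group
    rw [e1, e2] at h2
    exact h2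
  rcases le_total i j with hij | hij
  · obtain ⟨k, hk⟩ := Int.eq_ofNat_of_zero_le (sub_nonneg.2 hij)
    have : j = i + k := by rw [← hk]; ring
    rw [this]
    exact key i k
  · obtain ⟨k, hk⟩ := Int.eq_ofNat_of_zero_le (sub_nonneg.2 hij)
    have : i = j + k := by rw [← hk]; ring
    rw [this]
    exact (key j k).symm

/-- the subgroup generated by the chain of involutions -/
theorem cq_mem (h : AE G L e) (p q r : Q) (i n : ℕ) : cq L p q r i n ∈
    Subgroup.closure {g | ∃ i : ℤ, g = (tt L p q) ^ i * uu L p q r * (tt L p q) ^ (-i)} := by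
  induction n with
  | zero => exact Subgroup.one_mem _
  | succ n ih =>
    exact Subgroup.mul_mem _ (Subgroup.subset_closure ⟨_, h.cu_eq p q r (i + n)⟩) ih

theorem chain_odd (h : AE G L e) (p q r : Q) {n : ℕ} (hn : Odd n) :
    ∃ w ∈ Subgroup.closure {g | ∃ i : ℤ, g = (tt L p q) ^ i * uu L p q r * (tt L p q) ^ (-i)},
      tt L r (((tt L p q) ^ n) r) = w * tt L p q :=
  ⟨_, h.cq_mem p q r 0 n, h.edge_odd p q r hn⟩

/-- in a subgroup generated by commuting elements with square `1`, all elements commute and have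
square `1` -/
theorem closure_comm (h : AE G L e) (p q r : Q) {a b : Perm Q}
    (ha : a ∈ Subgroup.closure {g | ∃ i : ℤ, g = (tt L p q) ^ i * uu L p q r * (tt L p q) ^ (-i)})
    (hb : b ∈ Subgroup.closure {g | ∃ i : ℤ, g = (tt L p q) ^ i * uu L p q r * (tt L p q) ^ (-i)}) :
    a * b = b * a := by
  refine Subgroup.closure_induction₂ (p := fun x y _ _ => x * y = y * x) ?_ ?_ ?_ ?_ ?_ ?_ ?_ ha hb
  · rintro x y ⟨i, rfl⟩ ⟨j, rfl⟩
    exact (h.chain_comm p q r i j).eq
  · intro x _; simp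
  · intro x _; simp
  · intro x y z _ _ _ h1 h2
    rw [mul_assoc, h2, ← mul_assoc, h1, mul_assoc]
  · intro x y z _ _ _ h1 h2
    rw [← mul_assoc, h1, mul_assoc, h2, mul_assoc]
  · intro x y _ _ h1
    have : Commute x y := h1
    exact this.inv_left.eq
  · intro x y _ _ h1
    have : Commute x y := h1
    exact this.inv_right.eq

theorem closure_sq (h : AE G L e) (p q r : Q) {a : Perm Q}
    (ha : a ∈ Subgroup.closure {g | ∃ i : ℤ, g = (tt L p q) ^ i * uu L p q r * (tt L p q) ^ (-i)}) :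
    a * a = 1 := by
  refine Subgroup.closure_induction (p := fun x _ => x * x = 1) ?_ ?_ ?_ ?_ ha
  · rintro x ⟨i, rfl⟩
    have h1 := h.uu_sq p q r
    calc _ = (tt L p q) ^ i * (uu L p q r * uu L p q r) * (tt L p q) ^ (-i) := by group
      _ = 1 := by rw [h1]; group
  · simp
  · intro x y hx hy h1 h2
    have h3 := h.closure_comm p q r hx hy
    calc x * y * (x * y) = x * (y * x) * y := by group
      _ = x * (x * y) * y := by rw [h3]
      _ = (x * x) * (y * y) := by group
      _ = 1 := by rw [h1, h2, one_mul]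
  · intro x _ h1
    have : x⁻¹ = x := by rw [inv_eq_iff_mul_eq_one, h1]
    rw [this, h1]

end AE

end ALoop
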