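import Pool.Agent.H17.E2.Ter

/-!
# Chains in automorphic loops of exponent two

`C = t(p,q)`, `r_i = C^i r`, `u_i = u(p,q,r_i)`.  All `u_i` commute, and `t(r_0, r_m) = u_(m-1) ... u_0 C`
for odd `m`.
-/

set_option autoImplicit false

namespace ALoop

open Equiv

variable {Q : Type*}

/-- the chain of points -/
def cr (L : Q → Perm Q) (p q r : Q) (i : ℕ) : Q := ((tt L p q) ^ i) r

/-- the chain of involutions -/
def cu (L : Q → Perm Q) (p q r : Q) (i : ℕ) : Perm Q := uu L p q (cr L p q r i)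

/-- the product `u_(i+k-1) ... u_i` -/
def cq (L : Q → Perm Q) (p q r : Q) (i : ℕ) : ℕ → Perm Q
  | 0 => 1
  | k + 1 => cu L p q r (i + k) * cq L p q r i k

/-- the product `u_0 u_2 ... u_(2k-2)` -/
def cs (L : Q → Perm Q) (p q r : Q) : ℕ → Perm Q
  | 0 => 1
  | k + 1 => cs L p q r k * cu L p q r (2 * k)

variable {G : Subgroup (Perm Q)} {L : Q → Perm Q} {e : Q}

namespace AE

theorem uu_symm (h : AE G L e) (p q r : Q) : uu L p q r = uu L q p r := by
  rw [← h.uu_inv p q r]
  unfold uu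
  group

theorem cr_succ (p q r : Q) (i : ℕ) : cr L p q r (i + 1) = tt L p q (cr L p q r i) := by
  unfold cr
  rw [pow_succ', Perm.mul_apply]

section

variable (h : AE G L e) (p q r : Q)

include h

theorem cu_mem (i : ℕ) : cu L p q r i ∈ G := h.mem_uu _ _ _

theorem cu_sq (i : ℕ) : cu L p q r i * cu L p q r i = 1 := h.uu_sq _ _ _

theorem cu_inv (i : ℕ) : (cu L p q r i)⁻¹ = cu L p q r i := h.uu_inv _ _ _

theorem cu_conj (i : ℕ) : tt L p q * cu L p q r i * (tt L p q)⁻¹ = cu L p q r (i + 1) := by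
  unfold cu
  rw [h.uu_conj (h.mem_tt p q), h.tt_left, h.tt_right, ← cr_succ, h.uu_symm]

theorem cu_shift (i : ℕ) : tt L p q * cu L p q r i = cu L p q r (i + 1) * tt L p q := by
  rw [← h.cu_conj p q r i]; group

theorem cq_conj (i k : ℕ) : tt L p q * cq L p q r i k * (tt L p q)⁻¹ = cq L p q r (i + 1) k := by
  induction k with
  | zero => simp [cq]
  | succ k ih =>
    show tt L p q * (cu L p q r (i + k) * cq L p q r i k) * (tt L p q)⁻¹ =
      cu L p q r (i + 1 + k) * cq L p q r (i + 1) k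
    rw [← ih, show i + 1 + k = i + k + 1 by ring, ← h.cu_conj p q r (i + k)]
    group

/-- right end of the product -/
theorem cq_right (i k : ℕ) : cq L p q r i (k + 1) = cq L p q r (i + 1) k * cu L p q r i := by
  clear h
  induction k with
  | zero => simp [cq]
  | succ k ih =>
    show cu L p q r (i + (k + 1)) * cq L p q r i (k + 1) =
      cu L p q r (i + 1 + k) * cq L p q r (i + 1) k * cu L p q r i
    rw [ih, show i + (k + 1) = i + 1 + k by ring]
    group

theorem cr_edge (i : ℕ) : tt L (cr L p q r i) (cr L p q r (i + 1)) = cu L p q r i * tt L p q := by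
  rw [cr_succ]
  exact h.rs p q _

theorem cu_fix (i : ℕ) : cu L p q r i (cr L p q r (i + 1)) = cr L p q r (i + 1) := by
  rw [cr_succ]
  exact h.uu_s p q _

theorem cu_down (i : ℕ) : cu L p q r i (cr L p q r (i + 2)) = cr L p q r i := by
  have h1 := h.cr_edge p q r i
  have h2 := h.tt_right (cr L p q r i) (cr L p q r (i + 1))
  rw [h1, Perm.mul_apply, ← cr_succ] at h2
  exact h2

theorem cu_up (i : ℕ) : cu L p q r i (cr L p q r i) = cr L p q r (i + 2) := by
  have h1 := h.cu_down p q r i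
  have h2 : cu L p q r i (cu L p q r i (cr L p q r (i + 2))) = cr L p q r (i + 2) := by
    rw [← Perm.mul_apply, h.cu_sq]; rfl
  rw [h1] at h2
  exact h2

theorem cu_shift_pow (i j : ℕ) : (tt L p q) ^ j * cu L p q r i = cu L p q r (i + j) * (tt L p q) ^ j := by
  induction j with
  | zero => simp
  | succ j ih =>
    rw [pow_succ', mul_assoc, ih, ← mul_assoc, h.cu_shift, show i + (j + 1) = i + j + 1 by ring]
    group

/-- commuting depends on the difference only -/
theorem comm_shift {k : ℕ} (hk : Commute (cu L p q r 0) (cu L p q r k)) (i : ℕ) :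
    Commute (cu L p q r i) (cu L p q r (i + k)) := by
  have h1 : cu L p q r i = (tt L p q) ^ i * cu L p q r 0 * ((tt L p q) ^ i)⁻¹ := by
    rw [h.cu_shift_pow]; simp
  have h2 : cu L p q r (i + k) = (tt L p q) ^ i * cu L p q r k * ((tt L p q) ^ i)⁻¹ := by
    rw [h.cu_shift_pow]; simp [add_comm]
  rw [h1, h2]
  unfold Commute SemiconjBy at hk ⊢
  have : (tt L p q) ^ i * cu L p q r 0 * ((tt L p q) ^ i)⁻¹ *
      ((tt L p q) ^ i * cu L p q r k * ((tt L p q) ^ i)⁻¹) =
      (tt L p q) ^ i * (cu L p q r 0 * cu L p q r k) * ((tt L p q) ^ i)⁻¹ := by group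
  rw [this, hk]
  group

theorem comm_le {n : ℕ} (hS : ∀ k ≤ n, Commute (cu L p q r 0) (cu L p q r k)) {i j : ℕ}
    (h1 : i ≤ j + n) (h2 : j ≤ i + n) : Commute (cu L p q r i) (cu L p q r j) := by
  rcases le_total i j with hij | hij
  · obtain ⟨k, rfl⟩ := Nat.exists_eq_add_of_le hij
    exact h.comm_shift p q r (hS k (by omega)) i
  · obtain ⟨k, rfl⟩ := Nat.exists_eq_add_of_le hij
    exact (h.comm_shift p q r (hS k (by omega)) j).symm

/-- `u_i` commutes with the product `u_(j+k-1) ... u_j` -/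
theorem comm_cq {n : ℕ} (hS : ∀ k ≤ n, Commute (cu L p q r 0) (cu L p q r k)) {i j k : ℕ}
    (h1 : i ≤ j + n) (h2 : j + k ≤ i + n + 1) : Commute (cu L p q r i) (cq L p q r j k) := by
  induction k with
  | zero => exact Commute.one_right _
  | succ k ih => exact (h.comm_le p q r hS (by omega) (by omega)).mul_right (ih (by omega))

/-- edges from `p`, `q` to the chain -/
theorem edge_pq (k : ℕ) :
    (Even k → tt L p (cr L p q r k) = cq L p q r 0 k * tt L p r ∧
      tt L q (cr L p q r k) = cq L p q r 0 k * tt L q r) ∧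
    (Odd k → tt L p (cr L p q r k) = cq L p q r 0 k * tt L q r ∧
      tt L q (cr L p q r k) = cq L p q r 0 k * tt L p r) := by
  have hp : ∀ k, tt L p (cr L p q r (k + 1)) = cu L p q r k * tt L q (cr L p q r k) := fun k => by
    rw [cr_succ]; exact h.ps p q _
  have hq : ∀ k, tt L q (cr L p q r (k + 1)) = cu L p q r k * tt L p (cr L p q r k) := fun k => by
    rw [cr_succ]; exact h.qs p q _
  have hc : ∀ k, cq L p q r 0 (k + 1) = cu L p q r k * cq L p q r 0 k := fun k => by
    show cu L p q r (0 + k) * _ = _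
    rw [zero_add]
  induction k with
  | zero =>
    refine ⟨fun _ => ?_, fun h0 => absurd h0 (by decide)⟩
    simp [cq, cr]
  | succ k ih =>
    refine ⟨fun hk => ?_, fun hk => ?_⟩
    · have hk' : Odd k := by
        rcases Nat.even_or_odd k with h0 | h0
        · exact absurd hk (by simpa [Nat.even_add_one] using h0)
        · exact h0
      rw [hp, hq, (ih.2 hk').1, (ih.2 hk').2, hc]
      exact ⟨(mul_assoc _ _ _).symm, (mul_assoc _ _ _).symm⟩
    · have hk' : Even k := by
        rcases Nat.even_or_odd k with h0 | h0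
        · exact h0
        · exact absurd hk (by simpa [Nat.odd_add_one] using h0)
      rw [hp, hq, (ih.1 hk').1, (ih.1 hk').2, hc]
      exact ⟨(mul_assoc _ _ _).symm, (mul_assoc _ _ _).symm⟩

/-- `u_0` fixes `r_m`, `m` odd -/
theorem cu_odd {n : ℕ} (hS : ∀ k ≤ n, Commute (cu L p q r 0) (cu L p q r k)) :
    ∀ j, 2 * j + 1 ≤ n + 2 → cu L p q r 0 (cr L p q r (2 * j + 1)) = cr L p q r (2 * j + 1) := by
  intro j
  induction j with
  | zero => intro _; exact h.cu_fix p q r 0
  | succ j ih =>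
    intro hj
    have h1 := ih (by omega)
    have h2 := hS (2 * j + 1) (by omega)
    have h3 := h.cu_up p q r (2 * j + 1)
    rw [show 2 * (j + 1) + 1 = 2 * j + 1 + 2 by ring, ← h3]
    have h4 : cu L p q r 0 (cu L p q r (2 * j + 1) (cr L p q r (2 * j + 1))) =
        cu L p q r (2 * j + 1) (cu L p q r 0 (cr L p q r (2 * j + 1))) := by
      rw [← Perm.mul_apply, h2.eq, Perm.mul_apply]
    rw [h4, h1]

/-- the even step -/
theorem step_even {j : ℕ} (hS : ∀ k ≤ 2 * j + 1, Commute (cu L p q r 0) (cu L p q r k))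
    (hA : tt L (cr L p q r 0) (cr L p q r (2 * j + 1)) = cq L p q r 0 (2 * j + 1) * tt L p q) :
    Commute (cu L p q r 0) (cu L p q r (2 * j + 2)) ∧
    tt L (cr L p q r 0) (cr L p q r (2 * j + 3)) = cq L p q r 0 (2 * j + 3) * tt L p q := by
  set m := 2 * j + 1 with hm
  have hX : tt L (cr L p q r 1) (cr L p q r (m + 1)) = cq L p q r 1 m * tt L p q := by
    have h1 := h.tt_conj (h.mem_tt p q) (cr L p q r 0) (cr L p q r m)
    rw [← cr_succ, ← cr_succ, hA] at h1
    rw [show (0 + 1 : ℕ) = 1 from rfl] at h1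
    rw [← h1, ← h.cq_conj p q r 0 m]
    group
  have hY : tt L (cr L p q r 0) (cr L p q r 1) = cu L p q r 0 * tt L p q := h.cr_edge p q r 0
  have hs : tt L (cr L p q r 0) (cr L p q r 1) (cr L p q r (m + 1)) = cr L p q r (m + 2) := by
    rw [hY, Perm.mul_apply, ← cr_succ, show m + 1 + 1 = 2 * (j + 1) + 1 by omega,
      h.cu_odd p q r hS (j + 1) (by omega), show 2 * (j + 1) + 1 = m + 2 by omega]
  have hu : uu L (cr L p q r 0) (cr L p q r 1) (cr L p q r (m + 1)) =
      cu L p q r (m + 1) * cu L p q r 0 := by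
    have h1 := h.uu_inv2 (cr L p q r 0) (cr L p q r 1) (cr L p q r (m + 1))
    rw [h.uu_inv, h.uu_eq3, hX, hY] at h1
    rw [h1]
    have h2 : cq L p q r 1 m * cu L p q r 1 = cq L p q r 2 (m - 1) := by
      have h3 := h.cq_right p q r 1 (m - 1)
      rw [show m - 1 + 1 = m by omega] at h3
      rw [h3, mul_assoc, h.cu_sq, mul_one]
    have h4 : cq L p q r 2 m = cu L p q r (m + 1) * cq L p q r 2 (m - 1) := by
      obtain ⟨n, hn⟩ : ∃ n, m = n + 1 := ⟨m - 1, by omega⟩
      rw [hn]
      show cu L p q r (2 + n) * cq L p q r 2 n = _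
      rw [show 2 + n = n + 1 + 1 by ring]; rfl
    have h5 := h.cq_conj p q r 1 m
    have h6 := h.cu_conj p q r 0
    calc cq L p q r 1 m * tt L p q * (cu L p q r 0 * tt L p q) * (cq L p q r 1 m * tt L p q)⁻¹ *
        (cu L p q r 0 * tt L p q)⁻¹ =
        cq L p q r 1 m * (tt L p q * cu L p q r 0 * (tt L p q)⁻¹) *
          (tt L p q * cq L p q r 1 m * (tt L p q)⁻¹)⁻¹ * (cu L p q r 0)⁻¹ := by group
      _ = cq L p q r 1 m * cu L p q r 1 * (cq L p q r 2 m)⁻¹ * (cu L p q r 0)⁻¹ := by
          rw [h5, h6]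
      _ = _ := by
          rw [h2, h4, mul_inv_rev, h.cu_inv, h.cu_inv]
          group
  have hc : Commute (cu L p q r 0) (cu L p q r (m + 1)) := by
    have h1 := h.uu_sq (cr L p q r 0) (cr L p q r 1) (cr L p q r (m + 1))
    rw [hu] at h1
    have h2 : (cu L p q r (m + 1) * cu L p q r 0)⁻¹ = cu L p q r (m + 1) * cu L p q r 0 := by
      rw [inv_eq_iff_mul_eq_one]; exact h1
    rw [mul_inv_rev, h.cu_inv, h.cu_inv] at h2
    exact h2
  refine ⟨hc, ?_⟩
  have h1 := h.ps (cr L p q r 0) (cr L p q r 1) (cr L p q r (m + 1))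
  rw [hs, hu, hX] at h1
  rw [show 2 * j + 3 = m + 2 by omega, h1]
  show _ = cu L p q r (0 + (m + 1)) * cq L p q r 0 (m + 1) * tt L p q
  rw [zero_add, h.cq_right p q r 0 m]
  have h2 := h.comm_cq p q r hS (i := 0) (j := 1) (k := m) (by omega) (by omega)
  rw [mul_assoc (cu L p q r (m + 1)), ← mul_assoc (cu L p q r 0), h2.eq]
  group

theorem cs_mem (k : ℕ) : cs L p q r k ∈ G := by
  induction k with
  | zero => exact G.one_mem
  | succ k ih => exact G.mul_mem ih (h.cu_mem _ _ _ _)

theorem cs_apply (k : ℕ) : cs L p q r k (cr L p q r (2 * k)) = cr L p q r 0 := by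
  induction k with
  | zero => rfl
  | succ k ih =>
    show (cs L p q r k * cu L p q r (2 * k)) (cr L p q r (2 * (k + 1))) = _
    rw [Perm.mul_apply, show 2 * (k + 1) = 2 * k + 2 by ring, h.cu_down, ih]

theorem comm_cs {n : ℕ} (hS : ∀ k ≤ n, Commute (cu L p q r 0) (cu L p q r k)) {i k : ℕ}
    (h1 : i ≤ n) (h2 : 2 * k ≤ i + n + 1) : Commute (cu L p q r i) (cs L p q r k) := by
  induction k with
  | zero => exact Commute.one_right _
  | succ k ih => exact (ih (by omega)).mul_right (h.comm_le p q r hS (by omega) (by omega))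

theorem cs_sq {n : ℕ} (hS : ∀ k ≤ n, Commute (cu L p q r 0) (cu L p q r k)) {k : ℕ}
    (h2 : 2 * k ≤ n + 2) : cs L p q r k * cs L p q r k = 1 := by
  induction k with
  | zero => exact mul_one _
  | succ k ih =>
    have h3 := h.comm_cs p q r hS (i := 2 * k) (k := k) (by omega) (by omega)
    show cs L p q r k * cu L p q r (2 * k) * (cs L p q r k * cu L p q r (2 * k)) = 1
    rw [mul_assoc, ← mul_assoc (cu L p q r (2 * k)), h3.eq, mul_assoc (cs L p q r k) (cu L p q r (2 * k)),
      h.cu_sq, mul_one, ih (by omega)]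

/-- `u_0 u_2 ... u_(2k)` is `u_0` times a product of `u_2, ..., u_(2k)` -/
theorem cs_left {n : ℕ} (hS : ∀ k ≤ n, Commute (cu L p q r 0) (cu L p q r k)) (k : ℕ) :
    ∃ s, cs L p q r (k + 1) = cu L p q r 0 * s ∧
      ∀ i, i ≤ n + 2 → 2 * k ≤ i + n → Commute (cu L p q r i) s := by
  induction k with
  | zero =>
    refine ⟨1, ?_, fun i _ _ => Commute.one_right _⟩
    show cs L p q r 0 * cu L p q r (2 * 0) = _
    simp [cs]
  | succ k ih =>
    obtain ⟨s, hs, hs'⟩ := ih
    refine ⟨s * cu L p q r (2 * (k + 1)), ?_, fun i hi1 hi2 => ?_⟩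
    · show cs L p q r (k + 1) * _ = _
      rw [hs, mul_assoc]
    · exact (hs' i hi1 (by omega)).mul_right (h.comm_le p q r hS (by omega) (by omega))

/-- the odd step -/
theorem step_odd {j : ℕ} (hS : ∀ k ≤ 2 * j, Commute (cu L p q r 0) (cu L p q r k))
    (hA : tt L (cr L p q r 0) (cr L p q r (2 * j + 1)) = cq L p q r 0 (2 * j + 1) * tt L p q) :
    Commute (cu L p q r 0) (cu L p q r (2 * j + 1)) := by
  have hr0 : cr L p q r 0 = r := rfl
  obtain ⟨D, hD⟩ : ∃ D, D = tt L (cr L p q r 0) (cr L p q r (2 * j + 2)) := ⟨_, rfl⟩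
  obtain ⟨v, hv⟩ : ∃ v, v = cq L p q r 0 (2 * j + 2) := ⟨_, rfl⟩
  obtain ⟨hep, heq⟩ := (h.edge_pq p q r (2 * j + 2)).1 ⟨j + 1, by ring⟩
  rw [← hv] at hep heq
  -- the element `K`
  have key : ∀ z, tt L z (cr L p q r (2 * j + 2)) = v * tt L z r →
      Commute (D⁻¹ * v) (tt L z r) := by
    intro z hz
    have h1 := h.prod_comm (cr L p q r (2 * j + 2)) z (cr L p q r 0)
    rw [h.tt_symm (cr L p q r (2 * j + 2)) (cr L p q r 0), ← hD,
      h.tt_symm (cr L p q r (2 * j + 2)) z, hz, hr0] at h1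
    show D⁻¹ * v * tt L z r = tt L z r * (D⁻¹ * v)
    have h2 : D⁻¹ * v * tt L z r * tt L z r = tt L z r * (D⁻¹ * v) * tt L z r := by
      rw [mul_assoc D⁻¹ v, h1]; group
    exact mul_right_cancel h2
  have hKp := key p hep
  have hKq := key q heq
  have hK0 : Commute (D⁻¹ * v) (cu L p q r 0) := by
    show Commute (D⁻¹ * v) (uu L p q r)
    unfold uu
    exact ((hKq.mul_right hKp).mul_right hKq.inv_right).mul_right hKp.inv_right
  have hX : tt L (cr L p q r 1) (cr L p q r (2 * j + 2)) = v * (cu L p q r 0 * tt L p q) := by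
    have h1 := h.tt_conj (h.mem_tt p q) (cr L p q r 0) (cr L p q r (2 * j + 1))
    rw [← cr_succ, ← cr_succ, hA] at h1
    rw [show (0 + 1 : ℕ) = 1 from rfl] at h1
    have h2 := h.cq_conj p q r 0 (2 * j + 1)
    rw [show (0 + 1 : ℕ) = 1 from rfl] at h2
    have h3 := h.cq_right p q r 0 (2 * j + 1)
    rw [show (0 + 1 : ℕ) = 1 from rfl] at h3
    rw [← h1, hv, h3]
    calc tt L p q * (cq L p q r 0 (2 * j + 1) * tt L p q) * (tt L p q)⁻¹ =
        tt L p q * cq L p q r 0 (2 * j + 1) * (tt L p q)⁻¹ * tt L p q := by group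
      _ = cq L p q r 1 (2 * j + 1) * tt L p q := by rw [h2]
      _ = cq L p q r 1 (2 * j + 1) * (cu L p q r 0 * cu L p q r 0) * tt L p q := by
          rw [h.cu_sq, mul_one]
      _ = _ := by group
  have hKC0 : Commute (D⁻¹ * v) (cu L p q r 0 * tt L p q) := by
    have h1 := h.prod_comm (cr L p q r (2 * j + 2)) (cr L p q r 1) (cr L p q r 0)
    have hY : tt L (cr L p q r 0) (cr L p q r 1) = cu L p q r 0 * tt L p q := h.cr_edge p q r 0
    rw [h.tt_symm (cr L p q r (2 * j + 2)) (cr L p q r 0), ← hD,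
      h.tt_symm (cr L p q r (2 * j + 2)) (cr L p q r 1), hX,
      h.tt_symm (cr L p q r 1) (cr L p q r 0), hY] at h1
    show D⁻¹ * v * (cu L p q r 0 * tt L p q) = cu L p q r 0 * tt L p q * (D⁻¹ * v)
    have h2 : D⁻¹ * v * (cu L p q r 0 * tt L p q) * (cu L p q r 0 * tt L p q) =
        cu L p q r 0 * tt L p q * (D⁻¹ * v) * (cu L p q r 0 * tt L p q) := by
      rw [mul_assoc D⁻¹ v, h1]; group
    exact mul_right_cancel h2
  have hKC : Commute (D⁻¹ * v) (tt L p q) := by
    have h1 := hK0.inv_right.mul_right hKC0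
    rwa [← mul_assoc, inv_mul_cancel, one_mul] at h1
  have hKi : ∀ i, Commute (D⁻¹ * v) (cu L p q r i) := by
    intro i
    have h1 : cu L p q r i = (tt L p q) ^ i * cu L p q r 0 * ((tt L p q) ^ i)⁻¹ := by
      rw [h.cu_shift_pow]; simp
    rw [h1]
    exact ((hKC.pow_right i).mul_right hK0).mul_right (hKC.pow_right i).inv_right
  have hKs : ∀ k, Commute (D⁻¹ * v) (cs L p q r k) := by
    intro k
    induction k with
    | zero => exact Commute.one_right _
    | succ k ih => exact ih.mul_right (hKi _)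
  -- the swap
  have hs1 := h.cs_apply p q r (j + 1)
  rw [show 2 * (j + 1) = 2 * j + 2 by ring] at hs1
  have hs2 := h.cs_sq p q r hS (k := j + 1) (by omega)
  have hs3 : cs L p q r (j + 1) (cr L p q r 0) = cr L p q r (2 * j + 2) := by
    rw [← hs1, ← Perm.mul_apply, hs2]; rfl
  have hsD : Commute (cs L p q r (j + 1)) D := by
    rw [hD]
    exact h.tt_cent' (h.cs_mem p q r (j + 1)) hs3 hs1
  have hsv : Commute (cs L p q r (j + 1)) v := by
    have h1 := hsD.mul_right (hKs (j + 1)).symm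
    rwa [← mul_assoc, mul_inv_cancel, one_mul] at h1
  obtain ⟨s, hs, hs'⟩ := h.cs_left p q r hS j
  have hsq : Commute (cs L p q r (j + 1)) (cq L p q r 0 (2 * j + 1)) := by
    rw [hs]
    refine Commute.mul_left (h.comm_cq p q r hS (by omega) (by omega)) ?_
    have hgen : ∀ m, m ≤ 2 * j + 1 → Commute s (cq L p q r 0 m) := by
      intro m
      induction m with
      | zero => intro _; exact Commute.one_right _
      | succ m ih =>
        intro hm
        exact ((hs' (0 + m) (by omega) (by omega)).symm).mul_right (ih (by omega))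
    exact hgen _ le_rfl
  have hsn : Commute (cs L p q r (j + 1)) (cu L p q r (2 * j + 1)) := by
    have h1 : v = cu L p q r (2 * j + 1) * cq L p q r 0 (2 * j + 1) := by
      rw [hv]
      show cu L p q r (0 + (2 * j + 1)) * _ = _
      rw [zero_add]
    rw [h1] at hsv
    have h2 := hsv.mul_right hsq.inv_right
    rwa [mul_assoc, mul_inv_cancel, mul_one] at h2
  rw [hs] at hsn
  have h3 := (hs' (2 * j + 1) (by omega) (by omega)).symm
  have h4 := hsn.mul_left h3.inv_left
  rwa [mul_assoc, mul_inv_cancel, mul_one] at h4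

theorem chain_aux (j : ℕ) : (∀ k ≤ 2 * j + 1, Commute (cu L p q r 0) (cu L p q r k)) ∧
    tt L (cr L p q r 0) (cr L p q r (2 * j + 1)) = cq L p q r 0 (2 * j + 1) * tt L p q := by
  induction j with
  | zero =>
    have hA : tt L (cr L p q r 0) (cr L p q r (2 * 0 + 1)) =
        cq L p q r 0 (2 * 0 + 1) * tt L p q := by
      have h1 := h.cr_edge p q r 0
      rw [show (2 * 0 + 1 : ℕ) = 0 + 1 from rfl, h1]
      show _ = cu L p q r (0 + 0) * 1 * tt L p q
      rw [mul_one]
    refine ⟨fun k hk => ?_, hA⟩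
    rcases Nat.lt_or_ge k 1 with h1 | h1
    · rw [show k = 0 by omega]
    · rw [show k = 2 * 0 + 1 by omega]
      exact h.step_odd p q r (j := 0) (fun k hk => by rw [show k = 0 by omega]) hA
  | succ j ih =>
    obtain ⟨h1, h2⟩ := h.step_even p q r ih.1 ih.2
    have hS : ∀ k ≤ 2 * (j + 1), Commute (cu L p q r 0) (cu L p q r k) := by
      intro k hk
      rcases Nat.lt_or_ge k (2 * j + 2) with h3 | h3
      · exact ih.1 k (by omega)
      · rw [show k = 2 * j + 2 by omega]; exact h1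
    have h3 := h.step_odd p q r (j := j + 1) hS h2
    refine ⟨fun k hk => ?_, h2⟩
    rcases Nat.lt_or_ge k (2 * (j + 1) + 1) with h4 | h4
    · exact hS k (by omega)
    · rw [show k = 2 * (j + 1) + 1 by omega]; exact h3

/-- CHAIN LEMMA, first part: all `u_i` commute -/
theorem cu_comm (i j : ℕ) : Commute (cu L p q r i) (cu L p q r j) :=
  h.comm_le p q r (n := 2 * (i + j) + 1) (h.chain_aux p q r (i + j)).1 (by omega) (by omega)

/-- CHAIN LEMMA, second part: the edge `t(r_0, r_m)`, `m` odd -/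
theorem edge_odd {m : ℕ} (hm : Odd m) :
    tt L r (((tt L p q) ^ m) r) = cq L p q r 0 m * tt L p q := by
  obtain ⟨j, rfl⟩ := hm
  exact (h.chain_aux p q r j).2

end

end AE

end ALoop
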