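import Pool.Agent.H45.EE.Chain2
import Pool.Agent.H17.E2.NoInv

/-!
# The last step in the case of exponent two
-/

set_option autoImplicit false

namespace ALoop

open Equiv

/-- two elements of odd order in the same coset of an elementary abelian `2`-group are conjugate -/
theorem ee_conj {Γ : Type*} [Group Γ] (A : Subgroup Γ) (hcomm : ∀ x ∈ A, ∀ y ∈ A, x * y = y * x)
    (hsq : ∀ x ∈ A, x * x = 1) {ω w : Γ} (hw : w ∈ A) (hn : ∀ x ∈ A, ω * x * ω⁻¹ ∈ A) {m : ℕ}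
    (hm : Odd m) (h1 : ω ^ m = 1) (h2 : (w * ω) ^ m = 1) :
    ∃ g ∈ A, g * ω * g⁻¹ = w * ω := by
  let N : ℕ → Γ := fun j => (w * ω) ^ j * (ω ^ j)⁻¹
  have hN0 : N 0 = 1 := by simp [N]
  have hNs : ∀ j, N (j + 1) = w * (ω * N j * ω⁻¹) := by
    intro j
    show (w * ω) ^ (j + 1) * (ω ^ (j + 1))⁻¹ = w * (ω * ((w * ω) ^ j * (ω ^ j)⁻¹) * ω⁻¹)
    rw [pow_succ', pow_succ' ω, mul_inv_rev]
    have : (ω ^ j)⁻¹ * ω⁻¹ = ω⁻¹ * (ω ^ j)⁻¹ := by
      rw [← mul_inv_rev, ← mul_inv_rev, ← pow_succ, ← pow_succ']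
    group
  have hNA : ∀ j, N j ∈ A := by
    intro j
    induction j with
    | zero => rw [hN0]; exact A.one_mem
    | succ j ih => rw [hNs]; exact A.mul_mem hw (hn _ ih)
  let P : ℕ → Γ := fun k => Nat.rec 1 (fun j x => x * N j) k
  have hP0 : P 0 = 1 := rfl
  have hPs : ∀ k, P (k + 1) = P k * N k := fun k => rfl
  have hPA : ∀ k, P k ∈ A := by
    intro k
    induction k with
    | zero => exact A.one_mem
    | succ k ih => rw [hPs]; exact A.mul_mem ih (hNA k)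
  have hwk : ∀ k, w ^ k ∈ A := fun k => A.pow_mem hw k
  have key : ∀ k, w ^ k * (ω * P k * ω⁻¹) = P (k + 1) := by
    intro k
    induction k with
    | zero => rw [hPs, hP0, hN0]; simp
    | succ k ih =>
      have e1 : ω * P (k + 1) * ω⁻¹ = (ω * P k * ω⁻¹) * (ω * N k * ω⁻¹) := by rw [hPs]; group
      have e2 := hcomm _ hw _ (hn _ (hPA k))
      rw [e1, pow_succ, hPs (k + 1), hNs, ← ih]
      calc w ^ k * w * (ω * P k * ω⁻¹ * (ω * N k * ω⁻¹)) =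
          w ^ k * (w * (ω * P k * ω⁻¹)) * (ω * N k * ω⁻¹) := by group
        _ = w ^ k * ((ω * P k * ω⁻¹) * w) * (ω * N k * ω⁻¹) := by rw [e2]
        _ = _ := by group
  have hfin : w * (ω * P m * ω⁻¹) = P m := by
    have h3 := key m
    have h4 : w ^ m = w := by
      obtain ⟨j, rfl⟩ := hm
      rw [pow_succ, pow_mul, pow_two, hsq w hw, one_pow, one_mul]
    have h5 : N m = 1 := by
      show (w * ω) ^ m * (ω ^ m)⁻¹ = 1
      rw [h1, h2]; simp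
    rw [hPs, h5, mul_one, h4] at h3
    exact h3
  refine ⟨P m, hPA m, ?_⟩
  have h6 := hcomm _ hw _ (hn _ (hPA m))
  have h7 : w * (P m * ω * (P m)⁻¹) = ω := by
    have h8 : w * P m = ω * P m * ω⁻¹ := by
      calc w * P m = w * (w * (ω * P m * ω⁻¹)) := by rw [hfin]
        _ = (w * w) * (ω * P m * ω⁻¹) := by group
        _ = _ := by rw [hsq w hw, one_mul]
    calc w * (P m * ω * (P m)⁻¹) = (w * P m) * ω * (P m)⁻¹ := by group
      _ = _ := by rw [h8]; group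
  have h9 : w⁻¹ = w := by rw [inv_eq_iff_mul_eq_one, hsq w hw]
  calc P m * ω * (P m)⁻¹ = w⁻¹ * (w * (P m * ω * (P m)⁻¹)) := by group
    _ = _ := by rw [h7, h9]

variable {Q : Type*} {G : Subgroup (Perm Q)} {L : Q → Perm Q} {e : Q}

namespace AE

theorem end_step (h : AE G L e) {a b r : Q} {m : ℕ} {β : Perm Q} {p : ℕ} (hm : Odd m)
    (hT : (tt L a b * tt L a b) ^ m = 1) (hβ : β ∈ G) (hr : β r = r)
    (hinv : (tt L a b) ^ m * β * ((tt L a b) ^ m)⁻¹ = β⁻¹) (hp : Odd p) (hβp : β ^ p = 1) :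
    β = 1 := by
  obtain ⟨T, hTd⟩ : ∃ T, T = tt L a b := ⟨_, rfl⟩
  obtain ⟨τ, hτ⟩ : ∃ τ, τ = T ^ m := ⟨_, rfl⟩
  obtain ⟨ω, hω⟩ : ∃ ω, ω = T ^ (m + 1) := ⟨_, rfl⟩
  obtain ⟨x, hx⟩ : ∃ x, x = τ r := ⟨_, rfl⟩
  rw [← hTd] at hT hinv
  rw [← hτ] at hinv
  have hT2 : T ^ (2 * m) = 1 := by rw [pow_mul, pow_two, hT]
  have hTG : T ∈ G := by rw [hTd]; exact h.mem_tt a b
  have hτG : τ ∈ G := by rw [hτ]; exact G.pow_mem hTG m
  have hττ : τ * τ = 1 := by rw [hτ, ← pow_add, ← two_mul, hT2]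
  obtain ⟨j, hj⟩ := hm
  have hωm : ω ^ m = 1 := by
    rw [hω, ← pow_mul, show (m + 1) * m = 2 * m * (j + 1) by rw [hj]; ring, pow_mul, hT2, one_pow]
  have hTτω : T = τ * ω := by
    rw [hτ, hω, ← pow_add, show m + (m + 1) = 2 * m + 1 by ring, pow_succ, hT2, one_mul]
  have cTτ : Commute τ T := by rw [hτ]; exact (Commute.refl T).pow_left m
  have cτω : Commute τ ω := by rw [hω]; exact cTτ.pow_right _
  have hτx : τ x = r := by
    rw [hx, ← Perm.mul_apply, hττ]; rfl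
  -- the edge `R`
  obtain ⟨R, hR⟩ : ∃ R, R = tt L r x := ⟨_, rfl⟩
  have cτR : Commute τ R := by rw [hR]; exact h.tt_cent' hτG hx.symm hτx
  have hβx : β x = x := by
    have h1 : τ * β⁻¹ = β * τ := by
      have h2 : τ * β * τ⁻¹ = β⁻¹ := hinv
      have h3 : τ * β⁻¹ * τ⁻¹ = β := by
        calc τ * β⁻¹ * τ⁻¹ = (τ * β * τ⁻¹)⁻¹ := by group
          _ = β := by rw [h2, inv_inv]
      calc τ * β⁻¹ = τ * β⁻¹ * τ⁻¹ * τ := by group
        _ = _ := by rw [h3]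
    have h4 : β⁻¹ r = r := by rw [Perm.inv_eq_iff_eq, hr]
    have h5 : β x = (β * τ) r := by rw [hx]; rfl
    rw [h5, ← h1, Perm.mul_apply, h4, hx]
  have cβR : Commute β R := by rw [hR]; exact h.tt_cent hβ hr hβx
  obtain ⟨w, hw, hRw⟩ := h.chain_odd a b r (n := m) ⟨j, hj⟩
  rw [← hTd, ← hτ, ← hx, ← hR] at hRw
  obtain ⟨W, hW⟩ : ∃ W : Subgroup (Perm Q), W = Subgroup.closure
      {g | ∃ i : ℤ, g = (tt L a b) ^ i * uu L a b r * (tt L a b) ^ (-i)} := ⟨_, rfl⟩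
  rw [← hW] at hw
  have hWc : ∀ x ∈ W, ∀ y ∈ W, x * y = y * x := by
    intro x hx y hy
    rw [hW] at hx hy
    exact h.closure_comm a b r hx hy
  have hWs : ∀ x ∈ W, x * x = 1 := by
    intro x hx
    rw [hW] at hx
    exact h.closure_sq a b r hx
  have hWG : W ≤ G := by
    rw [hW, Subgroup.closure_le]
    rintro _ ⟨i, rfl⟩
    exact G.mul_mem (G.mul_mem (G.zpow_mem (h.mem_tt _ _) _) (h.mem_uu _ _ _))
      (G.zpow_mem (h.mem_tt _ _) _)
  have hWT : ∀ x ∈ W, T * x * T⁻¹ ∈ W := by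
    intro x hx
    rw [hW] at hx ⊢
    refine Subgroup.closure_induction (p := fun x _ => T * x * T⁻¹ ∈ Subgroup.closure
      {g | ∃ i : ℤ, g = (tt L a b) ^ i * uu L a b r * (tt L a b) ^ (-i)}) ?_ ?_ ?_ ?_ hx
    · rintro _ ⟨i, rfl⟩
      refine Subgroup.subset_closure ⟨i + 1, ?_⟩
      rw [hTd]; group
    · simp
    · intro y z _ _ h1 h2
      have : T * (y * z) * T⁻¹ = (T * y * T⁻¹) * (T * z * T⁻¹) := by group
      rw [this]; exact Subgroup.mul_mem _ h1 h2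
    · intro y _ h1
      have : T * y⁻¹ * T⁻¹ = (T * y * T⁻¹)⁻¹ := by group
      rw [this]; exact Subgroup.inv_mem _ h1
  have hWTk : ∀ k : ℕ, ∀ x ∈ W, T ^ k * x * (T ^ k)⁻¹ ∈ W := by
    intro k
    induction k with
    | zero => intro x hx; simpa using hx
    | succ k ih =>
      intro x hx
      have : T ^ (k + 1) * x * (T ^ (k + 1))⁻¹ = T * (T ^ k * x * (T ^ k)⁻¹) * T⁻¹ := by
        rw [pow_succ']; group
      rw [this]; exact hWT _ (ih x hx)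
  -- `(w T)^k ∈ W T^k`
  have hpow : ∀ k : ℕ, ∃ y ∈ W, R ^ k = y * T ^ k := by
    intro k
    induction k with
    | zero => exact ⟨1, W.one_mem, by simp⟩
    | succ k ih =>
      obtain ⟨y, hy, hyk⟩ := ih
      refine ⟨w * (T * y * T⁻¹), W.mul_mem hw (hWT y hy), ?_⟩
      rw [pow_succ', hyk, hRw, pow_succ']
      group
  obtain ⟨K, hK⟩ : ∃ K, K = (m + 1) * (m + 1) := ⟨_, rfl⟩
  have hTK : T ^ K = ω := by
    rw [hK, pow_mul, ← hω, pow_succ, hωm, one_mul]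
  obtain ⟨w', hw', hRk⟩ := hpow K
  rw [hTK] at hRk
  have hRm : (R ^ K) ^ m = 1 := by
    obtain ⟨y, hy, hyk⟩ := hpow (2 * m)
    rw [hT2, mul_one] at hyk
    have h4 : R ^ (4 * m) = 1 := by
      rw [show 4 * m = 2 * m + 2 * m by ring, pow_add, hyk, hWs y hy]
    rw [← pow_mul, hK, show (m + 1) * (m + 1) * m = 4 * m * ((j + 1) * (j + 1)) by rw [hj]; ring,
      pow_mul, h4, one_pow]
  have cτw' : Commute τ w' := by
    have h1 : w' = R ^ K * ω⁻¹ := by rw [hRk]; group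
    rw [h1]
    exact (cτR.pow_right _).mul_right cτω.inv_right
  let A : Subgroup (Perm Q) := W ⊓ Subgroup.centralizer {τ}
  have hAmem : ∀ y, y ∈ A ↔ y ∈ W ∧ Commute τ y := by
    intro y
    show y ∈ W ⊓ Subgroup.centralizer {τ} ↔ _
    rw [Subgroup.mem_inf, Subgroup.mem_centralizer_singleton_iff]
    constructor
    · rintro ⟨h1, h2⟩; exact ⟨h1, h2.symm⟩
    · rintro ⟨h1, h2⟩; exact ⟨h1, h2.symm⟩
  obtain ⟨g, hg, hgω⟩ := ee_conj A (fun x hx y hy => hWc x ((hAmem x).1 hx).1 y ((hAmem y).1 hy).1)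
    (fun x hx => hWs x ((hAmem x).1 hx).1) (ω := ω) (w := w') ((hAmem w').2 ⟨hw', cτw'⟩)
    (fun y hy => (hAmem _).2 ⟨by rw [hω]; exact hWTk _ y ((hAmem y).1 hy).1,
      (cτω.mul_right ((hAmem y).1 hy).2).mul_right cτω.inv_right⟩) ⟨j, hj⟩ hωm
    (by rw [← hRk]; exact hRm)
  have hgG : g ∈ G := hWG ((hAmem g).1 hg).1
  have cτg : Commute τ g := ((hAmem g).1 hg).2
  have hT' : tt L (g a) (g b) = τ * R ^ K := by
    rw [← h.tt_conj hgG, ← hTd, hTτω, hRk, ← hgω]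
    have : g * (τ * ω) * g⁻¹ = (g * τ) * ω * g⁻¹ := by group
    rw [this, ← cτg.eq]; group
  refine h.no_inv hβ (p := g a) (q := g b) ?_ hp hβp
  rw [hT']
  have h1 : R ^ K * β = β * R ^ K := (cβR.pow_right K).eq.symm
  calc τ * R ^ K * β * (τ * R ^ K)⁻¹ =
      τ * (R ^ K * β) * (R ^ K)⁻¹ * τ⁻¹ := by group
    _ = τ * (β * R ^ K) * (R ^ K)⁻¹ * τ⁻¹ := by rw [h1]
    _ = τ * β * τ⁻¹ := by group
    _ = β⁻¹ := hinv

end AE

end ALoop
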